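import Mathlib

set_option autoImplicit false

/-!
# Mean subtree order and edge deletion in bridgeless graphs

`subtrees G` are the subgraphs of `G` which are trees, `mu G` is the mean of their orders. Summing
`|H| - mu G` over the pairs (edge `e`, subtree `H` without `e`) in two ways gives
`∑ e, N(G - e) (mu G - mu (G - e)) = ∑ H, (|H| - mu G) ^ 2`, because a tree with `k` vertices has `k - 1` edges.
-/

namespace Pool.Agent.Results.MP_d417b4_co.Bridgeless

open Finset
open scoped Classical

variable {V : Type} [Fintype V]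

/-- the subtrees of `G`: the subgraphs of `G` which are trees (not necessarily induced) -/
noncomputable def subtrees (G : SimpleGraph V) : Finset G.Subgraph :=
  Finset.univ.filter fun H => H.coe.IsTree

/-- the mean subtree order of `G` -/
noncomputable def mu (G : SimpleGraph V) : ℝ :=
  (∑ H ∈ subtrees G, (H.verts.ncard : ℝ)) / (subtrees G).card

/-- a subgraph of `G - s` as a subgraph of `G` -/
def up (G : SimpleGraph V) (s : Set (Sym2 V)) (H : (G.deleteEdges s).Subgraph) : G.Subgraph where
  verts := H.verts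
  Adj := H.Adj
  adj_sub h := (SimpleGraph.deleteEdges_adj.1 (H.adj_sub h)).1
  edge_vert h := H.edge_vert h
  symm := H.symm

/-- a subgraph of `G` without edges in `s` as a subgraph of `G - s` -/
def down (G : SimpleGraph V) (s : Set (Sym2 V)) (H : G.Subgraph) (h : ∀ e ∈ s, e ∉ H.edgeSet) :
    (G.deleteEdges s).Subgraph where
  verts := H.verts
  Adj := H.Adj
  adj_sub hvw := SimpleGraph.deleteEdges_adj.2 ⟨H.adj_sub hvw, fun hs => h _ hs hvw⟩
  edge_vert h := H.edge_vert h
  symm := H.symm

theorem up_tree (G : SimpleGraph V) (s : Set (Sym2 V)) (H : (G.deleteEdges s).Subgraph)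
    (hH : H.coe.IsTree) : (up G s H).coe.IsTree := hH

theorem down_tree (G : SimpleGraph V) (s : Set (Sym2 V)) (H : G.Subgraph)
    (h : ∀ e ∈ s, e ∉ H.edgeSet) (hH : H.coe.IsTree) : (down G s H h).coe.IsTree := hH

theorem mem_subtrees (G : SimpleGraph V) (H : G.Subgraph) : H ∈ subtrees G ↔ H.coe.IsTree := by
  unfold subtrees
  rw [Finset.mem_filter]
  exact ⟨fun h => h.2, fun h => ⟨Finset.mem_univ _, h⟩⟩

theorem up_down (G : SimpleGraph V) (s : Set (Sym2 V)) (H : G.Subgraph)
    (h : ∀ e ∈ s, e ∉ H.edgeSet) : up G s (down G s H h) = H := rfl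

theorem down_up (G : SimpleGraph V) (s : Set (Sym2 V)) (H : (G.deleteEdges s).Subgraph)
    (h : ∀ e ∈ s, e ∉ (up G s H).edgeSet) : down G s (up G s H) h = H := rfl

theorem up_edge (G : SimpleGraph V) (s : Set (Sym2 V)) (H : (G.deleteEdges s).Subgraph) :
    ∀ e ∈ s, e ∉ (up G s H).edgeSet := by
  intro e hs he
  induction e with
  | _ a b =>
    have h1 : H.Adj a b := he
    exact (SimpleGraph.deleteEdges_adj.1 (H.adj_sub h1)).2 hs

theorem up_inj (G : SimpleGraph V) (s : Set (Sym2 V)) (H H' : (G.deleteEdges s).Subgraph)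
    (h : up G s H = up G s H') : H = H' := by
  have h1 := down_up G s H (up_edge G s H)
  have h2 := down_up G s H' (up_edge G s H')
  rw [← h1, ← h2]
  simp only [h]

/-- sums over the subtrees of `G - e` are sums over the subtrees of `G` without `e` -/
theorem sum_delete (G : SimpleGraph V) (e : Sym2 V) (F : ℕ → ℝ) :
    ∑ H ∈ subtrees (G.deleteEdges {e}), F H.verts.ncard =
      ∑ H ∈ (subtrees G).filter (fun H => e ∉ H.edgeSet), F H.verts.ncard := by
  refine Finset.sum_bij (fun H _ => up G {e} H) ?_ ?_ ?_ ?_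
  · intro H hH
    rw [mem_subtrees] at hH
    rw [Finset.mem_filter, mem_subtrees]
    exact ⟨up_tree G {e} H hH, up_edge G {e} H e (Set.mem_singleton _)⟩
  · intro H _ H' _ h
    exact up_inj G {e} H H' h
  · intro H hH
    rw [Finset.mem_filter, mem_subtrees] at hH
    have h1 : ∀ e' ∈ ({e} : Set (Sym2 V)), e' ∉ H.edgeSet := by
      intro e' he'
      rw [Set.mem_singleton_iff] at he'
      rw [he']
      exact hH.2
    refine ⟨down G {e} H h1, ?_, up_down G {e} H h1⟩
    rw [mem_subtrees]
    exact down_tree G {e} H h1 hH.1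
  · intro H _
    rfl

/-- a tree has one vertex more than edges -/
theorem card_edges (G : SimpleGraph V) (H : G.Subgraph) (hH : H.coe.IsTree) :
    H.edgeSet.ncard + 1 = H.verts.ncard := by
  have h1 := hH.card_edgeFinset
  have h2 : H.edgeSet.ncard = H.coe.edgeFinset.card := by
    rw [← SimpleGraph.Subgraph.image_coe_edgeSet_coe, Set.ncard_image_of_injective _
      (Sym2.map.injective Subtype.val_injective), ← Set.ncard_coe_finset,
      SimpleGraph.coe_edgeFinset]
  rw [h2, h1, ← Nat.card_eq_fintype_card]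
  rfl

/-- the subgraph with the single vertex `v` is a tree -/
theorem single_mem (G : SimpleGraph V) (v : V) : G.singletonSubgraph v ∈ subtrees G := by
  rw [mem_subtrees]
  exact SimpleGraph.IsTree.coe_singletonSubgraph G v

/-- an edge with its two ends is a tree -/
theorem edge_mem (G : SimpleGraph V) (u v : V) (h : G.Adj u v) : G.subgraphOfAdj h ∈ subtrees G := by
  rw [mem_subtrees]
  exact SimpleGraph.IsTree.coe_subgraphOfAdj h

theorem card_pos (G : SimpleGraph V) [Nonempty V] : 0 < (subtrees G).card :=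
  Finset.card_pos.2 ⟨_, single_mem G (Classical.arbitrary V)⟩

/-- the sum of the deviations from the mean is zero -/
theorem sum_dev (G : SimpleGraph V) [Nonempty V] :
    ∑ H ∈ subtrees G, ((H.verts.ncard : ℝ) - mu G) = 0 := by
  have h1 : ((subtrees G).card : ℝ) ≠ 0 := by
    have := card_pos G
    positivity
  rw [Finset.sum_sub_distrib, Finset.sum_const, nsmul_eq_mul]
  unfold mu
  field_simp
  ring

/-- the term of an edge -/
theorem term (G : SimpleGraph V) [Nonempty V] (e : Sym2 V) :
    ((subtrees (G.deleteEdges {e})).card : ℝ) * (mu G - mu (G.deleteEdges {e})) =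
      -∑ H ∈ (subtrees G).filter (fun H => e ∉ H.edgeSet), ((H.verts.ncard : ℝ) - mu G) := by
  have h1 : ((subtrees (G.deleteEdges {e})).card : ℝ) ≠ 0 := by
    have := card_pos (G.deleteEdges {e})
    positivity
  rw [← sum_delete G e (fun k => (k : ℝ) - mu G), Finset.sum_sub_distrib, Finset.sum_const,
    nsmul_eq_mul]
  have h2 : ∑ H ∈ subtrees (G.deleteEdges {e}), (H.verts.ncard : ℝ) =
      (subtrees (G.deleteEdges {e})).card * mu (G.deleteEdges {e}) := by
    unfold mu
    field_simp
  rw [h2]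
  ring

/-- the identity -/
theorem identity (G : SimpleGraph V) [Nonempty V] :
    ∑ e ∈ G.edgeFinset, ((subtrees (G.deleteEdges {e})).card : ℝ) *
      (mu G - mu (G.deleteEdges {e})) = ∑ H ∈ subtrees G, ((H.verts.ncard : ℝ) - mu G) ^ 2 := by
  have h1 : ∑ e ∈ G.edgeFinset, ((subtrees (G.deleteEdges {e})).card : ℝ) *
      (mu G - mu (G.deleteEdges {e})) =
      -∑ H ∈ subtrees G, ∑ e ∈ G.edgeFinset, if e ∉ H.edgeSet then ((H.verts.ncard : ℝ) - mu G) else 0 := by
    rw [Finset.sum_comm, ← Finset.sum_neg_distrib]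
    refine Finset.sum_congr rfl fun e _ => ?_
    rw [term, Finset.sum_filter]
  rw [h1]
  have h2 : ∀ H ∈ subtrees G, (∑ e ∈ G.edgeFinset,
      if e ∉ H.edgeSet then ((H.verts.ncard : ℝ) - mu G) else 0) =
      ((G.edgeFinset.card : ℝ) + 1 - mu G) * ((H.verts.ncard : ℝ) - mu G) -
        ((H.verts.ncard : ℝ) - mu G) ^ 2 := by
    intro H hH
    rw [← Finset.sum_filter, Finset.sum_const, nsmul_eq_mul]
    have h3 : ((G.edgeFinset.filter fun e => e ∉ H.edgeSet).card : ℝ) =
        (G.edgeFinset.card : ℝ) + 1 - H.verts.ncard := by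
      have h4 := Finset.card_filter_add_card_filter_not (s := G.edgeFinset) (fun e => e ∈ H.edgeSet)
      have h5 : (G.edgeFinset.filter fun e => e ∈ H.edgeSet).card = H.edgeSet.ncard := by
        rw [← Set.ncard_coe_finset]
        congr 1
        ext e
        simp only [Finset.coe_filter, SimpleGraph.mem_edgeFinset, Set.mem_ofPred_eq]
        exact ⟨fun h => h.2, fun h => ⟨H.edgeSet_subset h, h⟩⟩
      have h6 := card_edges G H ((mem_subtrees G H).1 hH)
      have h7 : ((G.edgeFinset.filter fun e => e ∈ H.edgeSet).card : ℝ) +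
          ((G.edgeFinset.filter fun e => e ∉ H.edgeSet).card : ℝ) = (G.edgeFinset.card : ℝ) := by
        exact_mod_cast h4
      have h8 : ((G.edgeFinset.filter fun e => e ∈ H.edgeSet).card : ℝ) + 1 = H.verts.ncard := by
        rw [h5]
        exact_mod_cast h6
      linarith
    rw [h3]
    ring
  rw [Finset.sum_congr rfl h2, Finset.sum_sub_distrib, ← Finset.mul_sum, sum_dev]
  ring

/-- the number of the bridges of `G` in the subgraph `H` -/
noncomputable def bridges (G : SimpleGraph V) (H : G.Subgraph) : ℕ :=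
  (G.edgeFinset.filter fun e => ¬(G.deleteEdges {e}).Connected ∧ e ∈ H.edgeSet).card

/-- the mean of the number of bridges in a subtree -/
noncomputable def muBridges (G : SimpleGraph V) : ℝ :=
  (∑ H ∈ subtrees G, (bridges G H : ℝ)) / (subtrees G).card

theorem sum_mul_bridges (G : SimpleGraph V) [Nonempty V] :
    ∑ H ∈ subtrees G, ((H.verts.ncard : ℝ) - mu G) * (bridges G H : ℝ) =
      ∑ e ∈ G.edgeFinset.filter (fun e => ¬(G.deleteEdges {e}).Connected),
        ((subtrees (G.deleteEdges {e})).card : ℝ) * (mu G - mu (G.deleteEdges {e})) := by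
  have h1 : ∀ H : G.Subgraph, ((H.verts.ncard : ℝ) - mu G) * (bridges G H : ℝ) =
      ∑ e ∈ G.edgeFinset.filter (fun e => ¬(G.deleteEdges {e}).Connected),
        if e ∈ H.edgeSet then ((H.verts.ncard : ℝ) - mu G) else 0 := by
    intro H
    rw [← Finset.sum_filter, Finset.sum_const, nsmul_eq_mul, Finset.filter_filter, mul_comm]
    rfl
  rw [Finset.sum_congr rfl fun H _ => h1 H, Finset.sum_comm]
  refine Finset.sum_congr rfl fun e _ => ?_
  rw [term, ← Finset.sum_filter]
  have h2 := Finset.sum_filter_add_sum_filter_not (subtrees G) (fun H => e ∈ H.edgeSet)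
    (fun H => ((H.verts.ncard : ℝ) - mu G))
  rw [sum_dev] at h2
  linarith

theorem dev_pos (G : SimpleGraph V) [Nonempty V] (u v : V) (h : G.Adj u v) :
    0 < ∑ H ∈ subtrees G, ((H.verts.ncard : ℝ) - mu G) ^ 2 := by
  have h0 : 0 ≤ ∑ H ∈ subtrees G, ((H.verts.ncard : ℝ) - mu G) ^ 2 :=
    Finset.sum_nonneg fun H _ => sq_nonneg _
  rcases h0.lt_or_eq with h1 | h1
  · exact h1
  · exfalso
    have h2 := (Finset.sum_eq_zero_iff_of_nonneg fun H _ => sq_nonneg _).1 h1.symm
    have h3 := h2 _ (single_mem G u)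
    have h4 := h2 _ (edge_mem G u v h)
    have h5 : (G.singletonSubgraph u).verts.ncard = 1 := Set.ncard_singleton u
    have h6 : (G.subgraphOfAdj h).verts.ncard = 2 := Set.ncard_pair h.ne
    rw [h5] at h3
    rw [h6] at h4
    have h7 := pow_eq_zero_iff (two_ne_zero) |>.1 h3
    have h8 := pow_eq_zero_iff (two_ne_zero) |>.1 h4
    push_cast at h7 h8
    linarith

theorem main (G : SimpleGraph V) [Nonempty V]
    (h : ∑ H ∈ subtrees G, ((bridges G H : ℝ) - muBridges G) ^ 2 <
      ∑ H ∈ subtrees G, ((H.verts.ncard : ℝ) - mu G) ^ 2) :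
    ∃ e ∈ G.edgeSet, (G.deleteEdges {e}).Connected ∧ mu (G.deleteEdges {e}) < mu G := by
  by_contra hcon
  push Not at hcon
  have h1 := identity G
  have h2 := sum_mul_bridges G
  have h3 := Finset.sum_filter_add_sum_filter_not G.edgeFinset
    (fun e => (G.deleteEdges {e}).Connected)
    (fun e => ((subtrees (G.deleteEdges {e})).card : ℝ) * (mu G - mu (G.deleteEdges {e})))
  have h4 : ∑ e ∈ G.edgeFinset.filter (fun e => (G.deleteEdges {e}).Connected),
      ((subtrees (G.deleteEdges {e})).card : ℝ) * (mu G - mu (G.deleteEdges {e})) ≤ 0 := by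
    refine Finset.sum_nonpos fun e he => ?_
    rw [Finset.mem_filter, SimpleGraph.mem_edgeFinset] at he
    have h5 := hcon e he.1 he.2
    have h6 : (0 : ℝ) ≤ ((subtrees (G.deleteEdges {e})).card : ℝ) := Nat.cast_nonneg _
    nlinarith
  set X := ∑ H ∈ subtrees G, ((H.verts.ncard : ℝ) - mu G) ^ 2 with hX
  set B := ∑ H ∈ subtrees G, ((bridges G H : ℝ) - muBridges G) ^ 2 with hB
  have h5 : X ≤ ∑ H ∈ subtrees G, ((H.verts.ncard : ℝ) - mu G) * (bridges G H : ℝ) := by
    rw [h2]
    linarith
  have h6 : ∑ H ∈ subtrees G, ((H.verts.ncard : ℝ) - mu G) * (bridges G H : ℝ) =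
      ∑ H ∈ subtrees G, ((H.verts.ncard : ℝ) - mu G) * ((bridges G H : ℝ) - muBridges G) := by
    have h7 : ∀ H ∈ subtrees G, ((H.verts.ncard : ℝ) - mu G) * ((bridges G H : ℝ) - muBridges G) =
        ((H.verts.ncard : ℝ) - mu G) * (bridges G H : ℝ) -
          muBridges G * ((H.verts.ncard : ℝ) - mu G) := by
      intro H _
      ring
    rw [Finset.sum_congr rfl h7, Finset.sum_sub_distrib, ← Finset.mul_sum, sum_dev]
    ring
  have h8 := Finset.sum_mul_sq_le_sq_mul_sq (subtrees G)
    (fun H => (H.verts.ncard : ℝ) - mu G) (fun H => (bridges G H : ℝ) - muBridges G)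
  rw [h6] at h5
  have h9 : 0 ≤ B := Finset.sum_nonneg fun H _ => sq_nonneg _
  have h10 : 0 < X := lt_of_le_of_lt h9 h
  have h11 : X ^ 2 ≤ X * B := le_trans (by nlinarith) h8
  nlinarith

/-- a graph with an edge in which no edge is a bridge -/
theorem bridgeless (G : SimpleGraph V) [Nonempty V] (hE : G.edgeSet.Nonempty)
    (hB : ∀ e ∈ G.edgeSet, (G.deleteEdges {e}).Connected) :
    ∃ e ∈ G.edgeSet, (G.deleteEdges {e}).Connected ∧ mu (G.deleteEdges {e}) < mu G := by
  refine main G ?_
  have h1 : ∀ H : G.Subgraph, bridges G H = 0 := by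
    intro H
    unfold bridges
    rw [Finset.card_eq_zero, Finset.filter_eq_empty_iff]
    intro e he h
    rw [SimpleGraph.mem_edgeFinset] at he
    exact h.1 (hB e he)
  have h2 : muBridges G = 0 := by
    unfold muBridges
    simp [h1]
  obtain ⟨e, he⟩ := hE
  induction e with
  | _ a b =>
    have h3 := dev_pos G a b he
    simpa [h1, h2] using h3

theorem few (G : SimpleGraph V) [Nonempty V]
    (h : ((subtrees G).card : ℝ) *
        ((G.edgeFinset.filter fun e => ¬(G.deleteEdges {e}).Connected).card : ℝ) ^ 2 <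
      4 * ∑ H ∈ subtrees G, ((H.verts.ncard : ℝ) - mu G) ^ 2) :
    ∃ e ∈ G.edgeSet, (G.deleteEdges {e}).Connected ∧ mu (G.deleteEdges {e}) < mu G := by
  refine main G ?_
  set β : ℝ := ((G.edgeFinset.filter fun e => ¬(G.deleteEdges {e}).Connected).card : ℝ) with hβ
  have h1 : ∑ H ∈ subtrees G, ((bridges G H : ℝ) - muBridges G) = 0 := by
    have h2 : ((subtrees G).card : ℝ) ≠ 0 := by
      have := card_pos G
      positivity
    rw [Finset.sum_sub_distrib, Finset.sum_const, nsmul_eq_mul]
    unfold muBridges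
    field_simp
    ring
  have h2 : ∑ H ∈ subtrees G, ((bridges G H : ℝ) - muBridges G) ^ 2 ≤
      ∑ H ∈ subtrees G, ((bridges G H : ℝ) - β / 2) ^ 2 := by
    have h3 : ∀ H ∈ subtrees G, ((bridges G H : ℝ) - β / 2) ^ 2 =
        ((bridges G H : ℝ) - muBridges G) ^ 2 +
          2 * (muBridges G - β / 2) * ((bridges G H : ℝ) - muBridges G) +
          (muBridges G - β / 2) ^ 2 := by
      intro H _
      ring
    rw [Finset.sum_congr rfl h3, Finset.sum_add_distrib, Finset.sum_add_distrib, ← Finset.mul_sum, h1]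
    have h4 : 0 ≤ ∑ _H ∈ subtrees G, (muBridges G - β / 2) ^ 2 :=
      Finset.sum_nonneg fun H _ => sq_nonneg _
    linarith
  have h3 : ∑ H ∈ subtrees G, ((bridges G H : ℝ) - β / 2) ^ 2 ≤
      ∑ _H ∈ subtrees G, β ^ 2 / 4 := by
    refine Finset.sum_le_sum fun H _ => ?_
    have h4 : (bridges G H : ℝ) ≤ β := by
      rw [hβ]
      have h5 : bridges G H ≤ (G.edgeFinset.filter fun e => ¬(G.deleteEdges {e}).Connected).card := by
        unfold bridges
        refine Finset.card_le_card fun e he => ?_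
        rw [Finset.mem_filter] at he ⊢
        exact ⟨he.1, he.2.1⟩
      exact_mod_cast h5
    have h5 : (0 : ℝ) ≤ (bridges G H : ℝ) := Nat.cast_nonneg _
    nlinarith
  rw [Finset.sum_const, nsmul_eq_mul] at h3
  linarith

/-- Q1 for graphs without bridges, and a criterion for graphs with bridges. -/
theorem result (V : Type) [Fintype V] [Nonempty V] (G : SimpleGraph V) :
    -- Q1 for graphs in which no edge is a bridge
    (G.edgeSet.Nonempty → (∀ e ∈ G.edgeSet, (G.deleteEdges {e}).Connected) →
      ∃ e ∈ G.edgeSet, (G.deleteEdges {e}).Connected ∧ mu (G.deleteEdges {e}) < mu G) ∧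
    -- the identity, for all graphs
    ∑ e ∈ G.edgeFinset, ((subtrees (G.deleteEdges {e})).card : ℝ) *
        (mu G - mu (G.deleteEdges {e})) = ∑ H ∈ subtrees G, ((H.verts.ncard : ℝ) - mu G) ^ 2 ∧
    -- Q1 when the number of bridges in a random subtree varies less than its order
    (∑ H ∈ subtrees G, ((bridges G H : ℝ) - muBridges G) ^ 2 <
        ∑ H ∈ subtrees G, ((H.verts.ncard : ℝ) - mu G) ^ 2 →
      ∃ e ∈ G.edgeSet, (G.deleteEdges {e}).Connected ∧ mu (G.deleteEdges {e}) < mu G) ∧
    -- Q1 when the variance of the orders is larger than a quarter of the square of the number of bridges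
    (((subtrees G).card : ℝ) *
        ((G.edgeFinset.filter fun e => ¬(G.deleteEdges {e}).Connected).card : ℝ) ^ 2 <
        4 * ∑ H ∈ subtrees G, ((H.verts.ncard : ℝ) - mu G) ^ 2 →
      ∃ e ∈ G.edgeSet, (G.deleteEdges {e}).Connected ∧ mu (G.deleteEdges {e}) < mu G) :=
  ⟨bridgeless G, identity G, main G, few G⟩

end Pool.Agent.Results.MP_d417b4_co.Bridgeless
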